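import Mathlib

/-!
# MP_670fc8_lc: a complete theory of low VC-density that is not weakly VC-minimal

The theory is the theory of the dense cyclic order.  Named parameters turn it into a dense linear
order, so it is dp-minimal and has low VC-density.  But an arc has two end points, and the copies of
a set with at least two end points are not of independence dimension `1`: a formula of independence
dimension at most `1` (without hidden parameters) defines only finite and cofinite sets.

All properties are proved in every model of the theory (of any universe), in particular in the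
monster model.
-/

open FirstOrder FirstOrder.Language

universe u v w

namespace Pool.Agent.Results.MP_670fc8_lc.CyclicOrder

/-! ### definitions of the problem -/

section Defs

variable {L : FirstOrder.Language.{u, v}} {N : Type w} [L.Structure N]

/-- the set `φ(N; b)` defined by an instance of the partitioned formula `φ(x̄; ȳ)` -/
def inst {k l : ℕ} (φ : L.Formula (Fin k ⊕ Fin l)) (b : Fin l → N) : Set (Fin k → N) :=
  {a | φ.Realize (Sum.elim a b)}

/-- a family of sets is independent if all intersections of its members and complements of its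
members, one for each member, are nonempty -/
def Independent {X : Type*} (𝒜 : Set (Set X)) : Prop :=
  ∀ s : 𝒜 → Bool, (⋂ B : 𝒜, if s B = true then (B : Set X) else (B : Set X)ᶜ).Nonempty

variable (N) in
/-- `φ(x̄; ȳ)` has independence dimension at most `d` in `N` -/
def IndepDimLE {k l : ℕ} (φ : L.Formula (Fin k ⊕ Fin l)) (d : ℕ) : Prop :=
  ∀ 𝒜 : Set (Set (Fin k → N)), 𝒜 ⊆ Set.range (inst φ) → Independent 𝒜 → 𝒜.encard ≤ d

variable (L N) in
/-- every instance `φ(x; b)` of a formula in one variable `x` is a Boolean combination of finitely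
many instances `ψ_i(x; c_i)` where each `ψ_i` has independence dimension at most 1 -/
def WeaklyVCMinimal : Prop :=
  ∀ (l : ℕ) (φ : L.Formula (Fin 1 ⊕ Fin l)) (b : Fin l → N),
    ∃ (m : ℕ) (r : Fin m → ℕ) (ψ : ∀ i, L.Formula (Fin 1 ⊕ Fin (r i))) (c : ∀ i, Fin (r i) → N)
      (β : (Fin m → Prop) → Prop), (∀ i, IndepDimLE N (ψ i) 1) ∧
      ∀ x : Fin 1 → N, x ∈ inst φ b ↔ β (fun i => x ∈ inst (ψ i) (c i))

/-- the complete `φ`-types in `x̄` over the finite set `B` -/
def phiTypes {k l : ℕ} (φ : L.Formula (Fin k ⊕ Fin l)) (B : Finset (Fin l → N)) :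
    Set (Set (Fin l → N)) :=
  Set.range (fun a : Fin k → N => {b | b ∈ B ∧ a ∈ inst φ b})

variable (N) in
/-- `π*_φ(n)` -/
noncomputable def piStar {k l : ℕ} (φ : L.Formula (Fin k ⊕ Fin l)) (n : ℕ) : ℕ :=
  sSup {m | ∃ B : Finset (Fin l → N), B.card = n ∧ m = (phiTypes φ B).ncard}

variable (N) in
/-- the VC-density of `φ` -/
noncomputable def vcDensity {k l : ℕ} (φ : L.Formula (Fin k ⊕ Fin l)) : ENNReal :=
  ⨅ (r : NNReal) (_ : (fun n : ℕ => (piStar N φ n : ℝ)) =O[Filter.atTop]
    (fun n : ℕ => (n : ℝ) ^ (r : ℝ))), (r : ENNReal)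

variable (L N) in
/-- low VC-density -/
def LowVCDensity : Prop :=
  ∀ (k l : ℕ) (φ : L.Formula (Fin k ⊕ Fin l)), vcDensity N φ ≤ k

variable (L N) in
/-- dp-minimality; consistency of a set of formulas with parameters from `N` is its finite
satisfiability in `N` -/
def DpMinimal : Prop :=
  ¬ ∃ (l m : ℕ) (φ : L.Formula (Fin 1 ⊕ Fin l)) (ψ : L.Formula (Fin 1 ⊕ Fin m))
    (b : ℕ → Fin l → N) (c : ℕ → Fin m → N), ∀ i j : ℕ, ∀ F : Finset ℕ, ∃ a : Fin 1 → N,
      a ∈ inst φ (b i) ∧ a ∈ inst ψ (c j) ∧ (∀ k ∈ F, k ≠ i → a ∉ inst φ (b k)) ∧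
      ∀ k ∈ F, k ≠ j → a ∉ inst ψ (c k)

end Defs

/-- the only relation symbol: a ternary one -/
inductive CycRel : ℕ → Type
  | cyc : CycRel 3

/-- the language of cyclic orders -/
def cycL : FirstOrder.Language.{0, 0} := ⟨fun _ => Empty, CycRel⟩

/-- the ternary relation of a structure -/
def C {N : Type*} [cycL.Structure N] (x y z : N) : Prop :=
  Structure.RelMap (L := cycL) CycRel.cyc ![x, y, z]

/-- the circle made from the rational line -/
def QCirc : Type := ℚ

noncomputable instance : LinearOrder QCirc := inferInstanceAs (LinearOrder ℚ)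

instance : Nonempty QCirc := ⟨(0 : ℚ)⟩

instance : DenselyOrdered QCirc := inferInstanceAs (DenselyOrdered ℚ)

instance : NoMaxOrder QCirc := inferInstanceAs (NoMaxOrder ℚ)

instance : cycL.Structure QCirc where
  funMap := fun f => f.elim
  RelMap := fun {n} r v => match n, r, v with
    | _, CycRel.cyc, v => (v 0 < v 1 ∧ v 1 < v 2) ∨ (v 1 < v 2 ∧ v 2 < v 0) ∨ (v 2 < v 0 ∧ v 0 < v 1)

/-- dense cyclic orders with at least two elements -/
structure IsDCO {N : Type*} (C : N → N → N → Prop) : Prop where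
  cyc : ∀ x y z, C x y z → C y z x
  asymm : ∀ x y z, C x y z → ¬ C x z y
  trans : ∀ x y z w, C x y z → C x z w → C x y w
  total : ∀ x y z, ¬ x = y → ¬ y = z → ¬ x = z → ¬ C x y z → C x z y
  dense : ∀ x y, ¬ x = y → ∃ z, C x z y
  nontriv : ∃ x y : N, ¬ x = y

def rC {α : Type*} {n : ℕ} (t1 t2 t3 : cycL.Term (α ⊕ Fin n)) : cycL.BoundedFormula α n :=
  Relations.boundedFormula (CycRel.cyc : cycL.Relations 3) ![t1, t2, t3]

theorem realize_rC {N : Type*} [cycL.Structure N] {α : Type*} {n : ℕ}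
    (t1 t2 t3 : cycL.Term (α ⊕ Fin n)) (v : α → N) (xs : Fin n → N) :
    (rC t1 t2 t3).Realize v xs ↔
      C (t1.realize (Sum.elim v xs)) (t2.realize (Sum.elim v xs)) (t3.realize (Sum.elim v xs)) := by
  unfold rC C
  rw [BoundedFormula.realize_rel]
  have : (fun i => (![t1, t2, t3] i).realize (Sum.elim v xs)) =
      ![t1.realize (Sum.elim v xs), t2.realize (Sum.elim v xs), t3.realize (Sum.elim v xs)] := by
    funext i
    fin_cases i <;> rfl
  rw [this]

def ax1 : cycL.Sentence := ∀' ∀' ∀' (rC &0 &1 &2 ⟹ rC &1 &2 &0)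
def ax2 : cycL.Sentence := ∀' ∀' ∀' (rC &0 &1 &2 ⟹ ∼(rC &0 &2 &1))
def ax3 : cycL.Sentence := ∀' ∀' ∀' ∀' (rC &0 &1 &2 ⟹ (rC &0 &2 &3 ⟹ rC &0 &1 &3))
def ax4 : cycL.Sentence := ∀' ∀' ∀' (∼(&0 =' &1) ⟹ (∼(&1 =' &2) ⟹ (∼(&0 =' &2) ⟹
  (∼(rC &0 &1 &2) ⟹ rC &0 &2 &1))))
def ax5 : cycL.Sentence := ∀' ∀' (∼(&0 =' &1) ⟹ ∃' (rC &0 &2 &1))
def ax6 : cycL.Sentence := ∃' ∃' (∼(&0 =' &1))

section
variable (N : Type*) [cycL.Structure N]

theorem real1 : N ⊨ ax1 ↔ ∀ x y z : N, C x y z → C y z x := by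
  simp only [ax1, Sentence.Realize, Formula.Realize, BoundedFormula.realize_all,
    BoundedFormula.realize_imp, realize_rC]
  rfl

theorem real2 : N ⊨ ax2 ↔ ∀ x y z : N, C x y z → ¬ C x z y := by
  simp only [ax2, Sentence.Realize, Formula.Realize, BoundedFormula.realize_all,
    BoundedFormula.realize_imp, realize_rC, BoundedFormula.realize_not]
  rfl

theorem real3 : N ⊨ ax3 ↔ ∀ x y z w : N, C x y z → C x z w → C x y w := by
  simp only [ax3, Sentence.Realize, Formula.Realize, BoundedFormula.realize_all,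
    BoundedFormula.realize_imp, realize_rC]
  rfl

theorem real4 : N ⊨ ax4 ↔ ∀ x y z : N, ¬ x = y → ¬ y = z → ¬ x = z → ¬ C x y z → C x z y := by
  simp only [ax4, Sentence.Realize, Formula.Realize, BoundedFormula.realize_all,
    BoundedFormula.realize_imp, realize_rC, BoundedFormula.realize_not,
    BoundedFormula.realize_bdEqual]
  rfl

theorem real5 : N ⊨ ax5 ↔ ∀ x y : N, ¬ x = y → ∃ z, C x z y := by
  simp only [ax5, Sentence.Realize, Formula.Realize, BoundedFormula.realize_all,
    BoundedFormula.realize_imp, realize_rC, BoundedFormula.realize_not,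
    BoundedFormula.realize_bdEqual, BoundedFormula.realize_ex]
  rfl

theorem real6 : N ⊨ ax6 ↔ ∃ x y : N, ¬ x = y := by
  simp only [ax6, Sentence.Realize, Formula.Realize, BoundedFormula.realize_not,
    BoundedFormula.realize_bdEqual, BoundedFormula.realize_ex]
  rfl
end

theorem C_QCirc (x y z : QCirc) : C x y z ↔ (x < y ∧ y < z) ∨ (y < z ∧ z < x) ∨ (z < x ∧ x < y) :=
  Iff.rfl

theorem isDCO_QCirc : IsDCO (C : QCirc → QCirc → QCirc → Prop) where
  cyc := by
    intro x y z h
    rw [C_QCirc] at *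
    tauto
  asymm := by
    intro x y z h h'
    rw [C_QCirc] at *
    rcases h with h | h | h <;> rcases h' with h' | h' | h' <;>
      first
        | exact absurd h.1 (lt_asymm h'.1)
        | exact absurd h.1 (lt_asymm h'.2)
        | exact absurd h.2 (lt_asymm h'.1)
        | exact absurd h.2 (lt_asymm h'.2)
  trans := by
    intro x y z w h h'
    rw [C_QCirc] at *
    rcases h with h | h | h <;> rcases h' with h' | h' | h' <;> 
      obtain ⟨h1, h2⟩ := h <;> obtain ⟨h3, h4⟩ := h'
    all_goals first | (exfalso; order) | skip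
    all_goals first | (left; constructor <;> order) | (right; left; constructor <;> order) | (right; right; constructor <;> order)
  total := by
    intro x y z h1 h2 h3 h
    rw [C_QCirc] at *
    rcases lt_trichotomy x y with h4 | h4 | h4
    · rcases lt_trichotomy y z with h5 | h5 | h5
      · exact absurd (Or.inl ⟨h4, h5⟩) h
      · exact absurd h5 h2
      · rcases lt_trichotomy x z with h6 | h6 | h6
        · exact Or.inl ⟨h6, h5⟩
        · exact absurd h6 h3
        · exact absurd (Or.inr (Or.inr ⟨h6, h4⟩)) h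
    · exact absurd h4 h1
    · rcases lt_trichotomy y z with h5 | h5 | h5
      · rcases lt_trichotomy x z with h6 | h6 | h6
        · exact Or.inr (Or.inr ⟨h4, h6⟩)
        · exact absurd h6 h3
        · exact absurd (Or.inr (Or.inl ⟨h5, h6⟩)) h
      · exact absurd h5 h2
      · exact Or.inr (Or.inl ⟨h5, h4⟩)
  dense := by
    intro x y h
    rcases lt_or_gt_of_ne h with h | h
    · obtain ⟨z, hz⟩ := exists_between (α := QCirc) h
      exact ⟨z, Or.inl hz⟩
    · obtain ⟨z, hz⟩ := exists_gt (α := QCirc) x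
      refine ⟨z, ?_⟩
      rw [C_QCirc]
      exact Or.inr (Or.inr ⟨h, hz⟩)
  nontriv := ⟨(0 : ℚ), (1 : ℚ), fun h => zero_ne_one (α := ℚ) h⟩

/-- the theory of the circle -/
def cycT : cycL.Theory := cycL.completeTheory QCirc

theorem cycT_complete : cycT.IsComplete := completeTheory.isComplete cycL QCirc

theorem isDCO_model (N : Type*) [cycL.Structure N] [h : N ⊨ cycT] :
    IsDCO (C : N → N → N → Prop) := by
  have key : ∀ σ : cycL.Sentence, QCirc ⊨ σ → N ⊨ σ := by
    intro σ hσ
    exact h.realize_of_mem σ hσ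
  have q := isDCO_QCirc
  exact
  { cyc := (real1 N).1 (key _ ((real1 QCirc).2 q.cyc))
    asymm := (real2 N).1 (key _ ((real2 QCirc).2 q.asymm))
    trans := (real3 N).1 (key _ ((real3 QCirc).2 q.trans))
    total := (real4 N).1 (key _ ((real4 QCirc).2 q.total))
    dense := (real5 N).1 (key _ ((real5 QCirc).2 q.dense))
    nontriv := (real6 N).1 (key _ ((real6 QCirc).2 q.nontriv)) }

/-! ### the linear order seen from a point -/

/-- the cyclic order of a linear order -/
def cycOf {A : Type*} [LinearOrder A] (x y z : A) : Prop :=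
  (x < y ∧ y < z) ∨ (y < z ∧ z < x) ∨ (z < x ∧ x < y)

theorem exists_order {N : Type*} {C : N → N → N → Prop} (h : IsDCO C) (b : N) :
    ∃ o : LinearOrder N, (∀ x, o.le b x) ∧ (∀ x y, o.lt x y → ∃ z, o.lt x z ∧ o.lt z y) ∧
      (∀ x, ∃ y, o.lt x y) ∧ ∀ x y z, C x y z ↔ @cycOf N o x y z := by
  classical
  obtain ⟨hc, ha, ht, htot, hd, hn⟩ := h
  have irr1 : ∀ x y, ¬ C x y y := fun x y h => ha _ _ _ h h
  have irr2 : ∀ x y, ¬ C y y x := fun x y h => irr1 x y (hc _ _ _ (hc _ _ _ h))
  have irr3 : ∀ x y, ¬ C y x y := fun x y h => irr1 x y (hc _ _ _ h)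
  let lt : N → N → Prop := fun x y => (x = b ∧ ¬ y = b) ∨ C b x y
  have lt_irrefl : ∀ x, ¬ lt x x := by
    rintro x (⟨h1, h2⟩ | h)
    · exact h2 h1
    · exact irr1 _ _ h
  have lt_trans : ∀ x y z, lt x y → lt y z → lt x z := by
    rintro x y z (⟨h1, h2⟩ | h) (⟨h3, h4⟩ | h')
    · exact absurd h3 h2
    · left
      refine ⟨h1, ?_⟩
      rintro rfl
      exact irr3 _ _ h'
    · exact Or.inl (absurd h (h3 ▸ irr3 _ _))
    · right
      -- C b x y, C b y z
      exact ht b x y z h h' 
  have lt_tri : ∀ x y, lt x y ∨ x = y ∨ lt y x := by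
    intro x y
    by_cases h1 : x = y
    · exact Or.inr (Or.inl h1)
    by_cases h2 : x = b
    · exact Or.inl (Or.inl ⟨h2, fun h => h1 (h2.trans h.symm)⟩)
    by_cases h3 : y = b
    · exact Or.inr (Or.inr (Or.inl ⟨h3, fun h => h1 (h.trans h3.symm)⟩))
    by_cases h4 : C b x y
    · exact Or.inl (Or.inr h4)
    · exact Or.inr (Or.inr (Or.inr (htot b x y (fun h => h2 h.symm) h1 (fun h => h3 h.symm) h4)))
  let o : LinearOrder N := 
    { lt := lt
      le := fun x y => lt x y ∨ x = y
      le_refl := fun x => Or.inr rfl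
      le_trans := by
        rintro x y z (h | rfl) (h' | rfl)
        · exact Or.inl (lt_trans _ _ _ h h')
        · exact Or.inl h
        · exact Or.inl h'
        · exact Or.inr rfl
      le_antisymm := by
        rintro x y (h | rfl) (h' | h')
        · exact absurd (lt_trans _ _ _ h h') (lt_irrefl _)
        · exact h'.symm
        · rfl
        · rfl
      lt_iff_le_not_ge := by
        intro x y
        constructor
        · intro h
          refine ⟨Or.inl h, ?_⟩
          rintro (h' | rfl)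
          · exact lt_irrefl _ (lt_trans _ _ _ h h')
          · exact lt_irrefl _ h
        · rintro ⟨h | rfl, h2⟩
          · exact h
          · exact absurd (Or.inr rfl) h2
      le_total := by
        intro x y
        rcases lt_tri x y with h | h | h
        · exact Or.inl (Or.inl h)
        · exact Or.inl (Or.inr h)
        · exact Or.inr (Or.inl h)
      toDecidableLE := Classical.decRel _ }
  refine ⟨o, ?_, ?_, ?_, ?_⟩
  · intro x
    by_cases h : x = b
    · exact Or.inr h.symm
    · exact Or.inl (Or.inl ⟨rfl, h⟩)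
  · rintro x y (⟨h1, h2⟩ | h)
    · subst h1
      obtain ⟨z, hz⟩ := hd x y (fun h => h2 h.symm)
      refine ⟨z, Or.inl ⟨rfl, ?_⟩, Or.inr hz⟩
      rintro rfl
      exact irr2 _ _ hz
    · -- C b x y ; find z with C x z y
      have hxy : ¬ x = y := by
        rintro rfl
        exact irr1 _ _ h
      obtain ⟨z, hz⟩ := hd x y hxy
      -- C x z y and C x y b
      have h1 : C x y b := hc _ _ _ h
      have h2 : C x z b := ht _ _ _ _ hz h1
      have h3 : C b x z := hc _ _ _ (hc _ _ _ h2)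
      have h4 : C y b x := hc _ _ _ h1
      have h5 : C y x z := hc _ _ _ (hc _ _ _ hz)
      -- C y b x, C y x z → C y b z
      have h6 : C y b z := ht _ _ _ _ h4 h5
      have h7 : C b z y := hc _ _ _ h6
      exact ⟨z, Or.inr h3, Or.inr h7⟩
  · intro x
    by_cases h : x = b
    · subst h
      obtain ⟨u, v, huv⟩ := hn
      by_cases h1 : u = x
      · exact ⟨v, Or.inl ⟨rfl, fun h2 => huv (h1.trans h2.symm)⟩⟩
      · exact ⟨u, Or.inl ⟨rfl, h1⟩⟩
    · obtain ⟨z, hz⟩ := hd x b h
      exact ⟨z, Or.inr (hc _ _ _ (hc _ _ _ hz))⟩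
  · intro x y z
    have key : ∀ x y z, C b x y → C b y z → C x y z := by
      intro x y z h1 h2
      have h3 : C y b x := hc _ _ _ (hc _ _ _ h1)
      have h4 : C y z b := hc _ _ _ h2
      have h5 : C y z x := ht _ _ _ _ h4 h3
      exact hc _ _ _ (hc _ _ _ h5)
    have key2 : ∀ x y z, lt x y → lt y z → C x y z := by
      rintro x y z (⟨h1, h2⟩ | h) (⟨h3, h4⟩ | h')
      · exact absurd h3 h2
      · rw [h1]; exact h'
      · exact absurd h (h3 ▸ irr3 _ _)
      · exact key _ _ _ h h'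
    constructor
    · intro h
      have hxy : ¬ x = y := by rintro rfl; exact irr2 _ _ h
      have hyz : ¬ y = z := by rintro rfl; exact irr1 _ _ h
      have hxz : ¬ x = z := by rintro rfl; exact irr3 _ _ h
      rcases lt_tri x y with h1 | h1 | h1
      · rcases lt_tri y z with h2 | h2 | h2
        · exact Or.inl ⟨h1, h2⟩
        · exact absurd h2 hyz
        · rcases lt_tri x z with h3 | h3 | h3
          · exact absurd (key2 _ _ _ h3 h2) (ha _ _ _ h)
          · exact absurd h3 hxz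
          · exact Or.inr (Or.inr ⟨h3, h1⟩)
      · exact absurd h1 hxy
      · rcases lt_tri y z with h2 | h2 | h2
        · rcases lt_tri x z with h3 | h3 | h3
          · exact absurd (hc _ _ _ (key2 _ _ _ h1 h3)) (ha _ _ _ h)
          · exact absurd h3 hxz
          · exact Or.inr (Or.inl ⟨h2, h3⟩)
        · exact absurd h2 hyz
        · exact absurd (hc _ _ _ (hc _ _ _ (key2 _ _ _ h2 h1))) (ha _ _ _ h)
    · rintro (⟨h1, h2⟩ | ⟨h1, h2⟩ | ⟨h1, h2⟩)
      · exact key2 _ _ _ h1 h2
      · exact hc _ _ _ (hc _ _ _ (key2 _ _ _ h1 h2))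
      · exact hc _ _ _ (key2 _ _ _ h1 h2)

/-! ### finite partial isomorphisms -/

def PIso {A B : Type*} (CA : A → A → A → Prop) (CB : B → B → B → Prop) (P : Set (A × B)) : Prop :=
  (∀ p ∈ P, ∀ q ∈ P, (p.1 = q.1 ↔ p.2 = q.2)) ∧
    ∀ p ∈ P, ∀ q ∈ P, ∀ r ∈ P, (CA p.1 q.1 r.1 ↔ CB p.2 q.2 r.2)

def OIso {A B : Type*} [LinearOrder A] [LinearOrder B] (P : Set (A × B)) : Prop :=
  ∀ p ∈ P, ∀ q ∈ P, (p.1 < q.1 ↔ p.2 < q.2)

theorem OIso.piso {A B : Type*} [LinearOrder A] [LinearOrder B] {P : Set (A × B)} (h : OIso P) :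
    PIso (cycOf (A := A)) (cycOf (A := B)) P := by
  refine ⟨fun p hp q hq => ?_, fun p hp q hq r hr => ?_⟩
  · have h1 := h p hp q hq
    have h2 := h q hq p hp
    constructor
    · intro h3
      refine le_antisymm (not_lt.1 ?_) (not_lt.1 ?_)
      · rw [← h2, h3]; exact lt_irrefl _
      · rw [← h1, h3]; exact lt_irrefl _
    · intro h3
      refine le_antisymm (not_lt.1 ?_) (not_lt.1 ?_)
      · rw [h2, h3]; exact lt_irrefl _
      · rw [h1, h3]; exact lt_irrefl _
  · unfold cycOf
    rw [h p hp q hq, h q hq r hr, h r hr p hp]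

theorem lt_iff_of_least {A : Type*} [LinearOrder A] {b : A} (hb : ∀ x, b ≤ x) (x y : A) :
    x < y ↔ (x = b ∧ ¬ y = b) ∨ cycOf b x y := by
  constructor
  · intro h
    rcases (hb x).eq_or_lt with h1 | h1
    · left
      exact ⟨h1.symm, fun h2 => by rw [h2] at h; exact absurd h (not_lt.2 (hb x))⟩
    · exact Or.inr (Or.inl ⟨h1, h⟩)
  · rintro (⟨h1, h2⟩ | (⟨h1, h2⟩ | ⟨h1, h2⟩ | ⟨h1, h2⟩))
    · rw [h1]
      exact lt_of_le_of_ne (hb y) (fun h => h2 h.symm)
    · exact h2
    · exact absurd h2 (not_lt.2 (hb y))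
    · exact absurd h1 (not_lt.2 (hb y))

theorem OIso.ext {A B : Type*} [LinearOrder A] [LinearOrder B]
    (hd : ∀ x y : B, x < y → ∃ z, x < z ∧ z < y) (hmax : ∀ x : B, ∃ y, x < y)
    {P : Set (A × B)} (hfin : P.Finite) (hP : OIso P) (b : A × B) (hb : b ∈ P)
    (hbA : ∀ x, b.1 ≤ x) (x : A) : ∃ y : B, OIso (insert (x, y) P) := by
  by_cases hx : ∃ p ∈ P, p.1 = x
  · obtain ⟨p, hp, rfl⟩ := hx
    refine ⟨p.2, ?_⟩
    have : insert (p.1, p.2) P = P := Set.insert_eq_of_mem hp
    rw [this]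
    exact hP
  push Not at hx
  have hLfin : ({p | p ∈ P ∧ p.1 < x} : Set (A × B)).Finite := hfin.subset (fun p hp => hp.1)
  have hHfin : ({p | p ∈ P ∧ x < p.1} : Set (A × B)).Finite := hfin.subset (fun p hp => hp.1)
  have hbL : b ∈ ({p | p ∈ P ∧ p.1 < x} : Set (A × B)) :=
    ⟨hb, lt_of_le_of_ne (hbA x) (hx b hb)⟩
  obtain ⟨p0, hp0, hp0max⟩ := Set.exists_max_image _ (fun p : A × B => p.2) hLfin ⟨b, hbL⟩
  have hy : ∃ y : B, (∀ p ∈ P, p.1 < x → p.2 < y) ∧ ∀ p ∈ P, x < p.1 → y < p.2 := by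
    by_cases hH : ({p | p ∈ P ∧ x < p.1} : Set (A × B)).Nonempty
    · obtain ⟨q0, hq0, hq0min⟩ := Set.exists_min_image _ (fun p : A × B => p.2) hHfin hH
      have h1 : p0.2 < q0.2 := (hP p0 hp0.1 q0 hq0.1).1 (hp0.2.trans hq0.2)
      obtain ⟨y, hy1, hy2⟩ := hd _ _ h1
      refine ⟨y, fun p hp hpx => lt_of_le_of_lt (hp0max p ⟨hp, hpx⟩) hy1,
        fun p hp hpx => lt_of_lt_of_le hy2 (hq0min p ⟨hp, hpx⟩)⟩
    · obtain ⟨y, hy⟩ := hmax p0.2
      refine ⟨y, fun p hp hpx => lt_of_le_of_lt (hp0max p ⟨hp, hpx⟩) hy,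
        fun p hp hpx => absurd ⟨p, hp, hpx⟩ hH⟩
  obtain ⟨y, hy1, hy2⟩ := hy
  refine ⟨y, ?_⟩
  have h1 : ∀ p ∈ P, (p.1 < x ↔ p.2 < y) := by
    intro p hp
    refine ⟨hy1 p hp, fun h => ?_⟩
    rcases lt_trichotomy p.1 x with h' | h' | h'
    · exact h'
    · exact absurd h' (hx p hp)
    · exact absurd (hy2 p hp h') (lt_asymm h)
  have h2 : ∀ p ∈ P, (x < p.1 ↔ y < p.2) := by
    intro p hp
    refine ⟨hy2 p hp, fun h => ?_⟩
    rcases lt_trichotomy p.1 x with h' | h' | h'
    · exact absurd (hy1 p hp h') (lt_asymm h)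
    · exact absurd h' (hx p hp)
    · exact h'
  rintro p (rfl | hp) q (rfl | hq)
  · simp
  · exact h2 q hq
  · exact h1 p hp
  · exact hP p hp q hq

theorem PIso.ext {N : Type*} {C : N → N → N → Prop} (h : IsDCO C) {P : Set (N × N)}
    (hfin : P.Finite) (hP : PIso C C P) (x : N) : ∃ y, PIso C C (insert (x, y) P) := by
  rcases P.eq_empty_or_nonempty with rfl | ⟨b, hb⟩
  · refine ⟨x, ?_, ?_⟩
    · rintro p (rfl | hp) q (rfl | hq)
      · simp
      · exact absurd hq (Set.notMem_empty _)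
      · exact absurd hp (Set.notMem_empty _)
      · exact absurd hp (Set.notMem_empty _)
    · rintro p (rfl | hp) q (rfl | hq) r (rfl | hr)
      · exact Iff.rfl
      all_goals (first | exact absurd hp (Set.notMem_empty _) | exact absurd hq (Set.notMem_empty _) | exact absurd hr (Set.notMem_empty _))
  · obtain ⟨o, ho1, ho2, ho3, ho4⟩ := exists_order h b.1
    obtain ⟨o', ho1', ho2', ho3', ho4'⟩ := exists_order h b.2
    have hO : @OIso N N o o' P := by
      intro p hp q hq
      rw [@lt_iff_of_least N o _ ho1 p.1 q.1, @lt_iff_of_least N o' _ ho1' p.2 q.2,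
        hP.1 p hp b hb, hP.1 q hq b hb, ← ho4, ← ho4', hP.2 b hb p hp q hq]
    obtain ⟨y, hy⟩ := @OIso.ext N N o o' ho2' ho3' P hfin hO b hb ho1 x
    refine ⟨y, ?_⟩
    have := @OIso.piso N N o o' _ hy
    refine ⟨this.1, fun p hp q hq r hr => ?_⟩
    rw [ho4, ho4']
    exact this.2 p hp q hq r hr

theorem PIso.ext' {N : Type*} {C : N → N → N → Prop} (h : IsDCO C) {P : Set (N × N)}
    (hfin : P.Finite) (hP : PIso C C P) (y : N) : ∃ x, PIso C C (insert (x, y) P) := by
  have h1 : PIso C C (Prod.swap ⁻¹' P) :=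
    ⟨fun p hp q hq => (hP.1 p.swap hp q.swap hq).symm,
      fun p hp q hq r hr => (hP.2 p.swap hp q.swap hq r.swap hr).symm⟩
  have h2 : (Prod.swap ⁻¹' P).Finite := by
    apply hfin.preimage
    exact Prod.swap_injective.injOn
  obtain ⟨x, hx⟩ := PIso.ext h h2 h1 y
  refine ⟨x, ?_⟩
  have key : ∀ p ∈ insert (x, y) P, p.swap ∈ insert (y, x) (Prod.swap ⁻¹' P) := by
    rintro p (rfl | hp)
    · exact Or.inl rfl
    · right
      exact hp
  exact ⟨fun p hp q hq => (hx.1 p.swap (key p hp) q.swap (key q hq)).symm,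
    fun p hp q hq r hr => (hx.2 p.swap (key p hp) q.swap (key q hq) r.swap (key r hr)).symm⟩

theorem term_mem {N : Type*} [cycL.Structure N] {β : Type*} (t : cycL.Term β) {P : Set (N × N)}
    (v v' : β → N) (hv : ∀ i, (v i, v' i) ∈ P) : (t.realize v, t.realize v') ∈ P := by
  cases t with
  | var i => exact hv i
  | func f _ => exact f.elim

theorem realize_iff {N : Type*} [cycL.Structure N] (h : IsDCO (C : N → N → N → Prop))
    {α : Type*} {n : ℕ} (φ : cycL.BoundedFormula α n) : ∀ (P : Set (N × N)), P.Finite →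
    PIso C C P → ∀ (v v' : α → N) (xs xs' : Fin n → N), (∀ i, (v i, v' i) ∈ P) →
    (∀ j, (xs j, xs' j) ∈ P) → (φ.Realize v xs ↔ φ.Realize v' xs') := by
  induction φ with
  | falsum => 
    intro P _ _ v v' xs xs' _ _
    exact Iff.rfl
  | equal t1 t2 =>
    intro P _ hP v v' xs xs' hv hxs
    have hs : ∀ i, (Sum.elim v xs i, Sum.elim v' xs' i) ∈ P := by
      rintro (i | i)
      · exact hv i
      · exact hxs i
    exact hP.1 _ (term_mem t1 _ _ hs) _ (term_mem t2 _ _ hs)
  | rel R ts =>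
    intro P _ hP v v' xs xs' hv hxs
    have hs : ∀ i, (Sum.elim v xs i, Sum.elim v' xs' i) ∈ P := by
      rintro (i | i)
      · exact hv i
      · exact hxs i
    cases R
    have e1 : ∀ w : Fin 3 → N, Structure.RelMap (L := cycL) CycRel.cyc w ↔ C (w 0) (w 1) (w 2) := by
      intro w
      unfold C
      have : w = ![w 0, w 1, w 2] := by
        funext i
        fin_cases i <;> rfl
      rw [← this]
    have e2 := hP.2 _ (term_mem (ts 0) _ _ hs) _ (term_mem (ts 1) _ _ hs) _ (term_mem (ts 2) _ _ hs)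
    have e3 := (e1 (fun i => (ts i).realize (Sum.elim v xs))).trans
      (e2.trans (e1 (fun i => (ts i).realize (Sum.elim v' xs'))).symm)
    exact e3
  | imp f g hf hg =>
    intro P hfin hP v v' xs xs' hv hxs
    rw [BoundedFormula.realize_imp, BoundedFormula.realize_imp, hf P hfin hP v v' xs xs' hv hxs,
      hg P hfin hP v v' xs xs' hv hxs]
  | all f hf =>
    intro P hfin hP v v' xs xs' hv hxs
    rw [BoundedFormula.realize_all, BoundedFormula.realize_all]
    have hs : ∀ x y : N, ∀ j, (Fin.snoc (α := fun _ => N) xs x j, Fin.snoc (α := fun _ => N) xs' y j) ∈ insert (x, y) P := by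
      intro x y j
      refine Fin.lastCases ?_ (fun i => ?_) j
      · simp
      · simp only [Fin.snoc_castSucc]
        exact Or.inr (hxs i)
    constructor
    · intro H y
      obtain ⟨x, hx⟩ := PIso.ext' h hfin hP y
      exact (hf _ (hfin.insert _) hx v v' _ _ (fun i => Or.inr (hv i)) (hs x y)).1 (H x)
    · intro H x
      obtain ⟨y, hy⟩ := PIso.ext h hfin hP x
      exact (hf _ (hfin.insert _) hy v v' _ _ (fun i => Or.inr (hv i)) (hs x y)).2 (H y)

theorem realize_iff_P {N : Type*} [cycL.Structure N] (h : IsDCO (C : N → N → N → Prop))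
    {α : Type*} (φ : cycL.Formula α) (P : Set (N × N)) (hfin : P.Finite) (hP : PIso C C P)
    (v v' : α → N) (hv : ∀ i, (v i, v' i) ∈ P) : φ.Realize v ↔ φ.Realize v' :=
  realize_iff h φ P hfin hP v v' _ _ hv (fun j => j.elim0)

/-! ### counting -/

section Count

variable {N : Type*} [LinearOrder N]

/-- the position of a tuple with respect to a finite set -/
noncomputable def pos (A : Finset N) {k : ℕ} (a : Fin k → N) :
    (Fin k → Fin (A.card + 1) × Bool) × (Fin k → Fin k → Bool) :=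
  (fun i => (⟨(A.filter (fun c => c < a i)).card,
      Nat.lt_succ_of_le (Finset.card_filter_le _ _)⟩, decide (a i ∈ A)),
    fun i j => decide (a i < a j))

theorem pos_lt {A : Finset N} {k : ℕ} {a a' : Fin k → N} (h : pos A a = pos A a') (i : Fin k)
    {c : N} (hc : c ∈ A) : c < a i ↔ c < a' i := by
  have h1 : (A.filter (fun c => c < a i)).card = (A.filter (fun c => c < a' i)).card := by
    have := congrArg (fun z => ((z.1 i).1 : ℕ)) h
    exact this
  have h2 : A.filter (fun c => c < a i) = A.filter (fun c => c < a' i) := by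
    rcases le_total (a i) (a' i) with h3 | h3
    · apply Finset.eq_of_subset_of_card_le _ h1.ge
      intro d hd
      rw [Finset.mem_filter] at *
      exact ⟨hd.1, hd.2.trans_le h3⟩
    · symm
      apply Finset.eq_of_subset_of_card_le _ h1.le
      intro d hd
      rw [Finset.mem_filter] at *
      exact ⟨hd.1, hd.2.trans_le h3⟩
  have h4 : c ∈ A.filter (fun c => c < a i) ↔ c ∈ A.filter (fun c => c < a' i) := by rw [h2]
  rw [Finset.mem_filter, Finset.mem_filter] at h4
  tauto

theorem pos_mem {A : Finset N} {k : ℕ} {a a' : Fin k → N} (h : pos A a = pos A a') (i : Fin k) :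
    a i ∈ A ↔ a' i ∈ A := by
  have h1 : decide (a i ∈ A) = decide (a' i ∈ A) := congrArg (fun z => (z.1 i).2) h
  simpa using h1

theorem pos_gt {A : Finset N} {k : ℕ} {a a' : Fin k → N} (h : pos A a = pos A a') (i : Fin k)
    {c : N} (hc : c ∈ A) (h1 : a i < c) : a' i < c := by
  by_contra h2
  rcases (not_lt.1 h2).lt_or_eq with h3 | h3
  · exact absurd ((pos_lt h i hc).2 h3) (lt_asymm h1)
  · have h4 : a' i ∈ A := h3 ▸ hc
    have h5 := (pos_mem h i).2 h4
    have h6 : a i < a' i := h3 ▸ h1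
    exact lt_irrefl _ ((pos_lt h i h5).2 h6)

theorem pos_oiso {A : Finset N} {k : ℕ} {a a' : Fin k → N} (h : pos A a = pos A a') :
    OIso ({p | (∃ i, p = (a i, a' i)) ∨ (p.1 ∈ A ∧ p.2 = p.1)} : Set (N × N)) := by
  rintro p (⟨i, rfl⟩ | ⟨hp, hp'⟩) q (⟨j, rfl⟩ | ⟨hq, hq'⟩)
  · have h1 : decide (a i < a j) = decide (a' i < a' j) := congrArg (fun z => z.2 i j) h
    simpa using h1
  · rw [hq']
    exact ⟨pos_gt h i hq, pos_gt h.symm i hq⟩
  · rw [hp']
    exact pos_lt h j hp
  · rw [hp', hq']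

theorem pos_fin {A : Finset N} {k : ℕ} (a a' : Fin k → N) :
    ({p | (∃ i, p = (a i, a' i)) ∨ (p.1 ∈ A ∧ p.2 = p.1)} : Set (N × N)).Finite := by
  have : ({p | (∃ i, p = (a i, a' i)) ∨ (p.1 ∈ A ∧ p.2 = p.1)} : Set (N × N)) ⊆
      Set.range (fun i => (a i, a' i)) ∪ (fun c => (c, c)) '' (A : Set N) := by
    rintro p (⟨i, rfl⟩ | ⟨hp, hp'⟩)
    · exact Or.inl ⟨i, rfl⟩
    · right
      exact ⟨p.1, hp, by ext <;> simp [hp']⟩
  exact ((Set.finite_range _).union (A.finite_toSet.image _)).subset this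

theorem card_pos (A : Finset N) (k : ℕ) :
    Fintype.card ((Fin k → Fin (A.card + 1) × Bool) × (Fin k → Fin k → Bool)) =
      ((A.card + 1) * 2) ^ k * (2 ^ k) ^ k := by
  simp

end Count

theorem cycOf_iff_of_pos {N : Type*} [cycL.Structure N] (h : IsDCO (C : N → N → N → Prop))
    (o : LinearOrder N) (ho : ∀ x y z : N, C x y z ↔ @cycOf N o x y z) (A : Finset N) {k : ℕ}
    {a a' : Fin k → N} (hp : @pos N o A k a = @pos N o A k a') {l : ℕ}
    (φ : cycL.Formula (Fin k ⊕ Fin l)) (b : Fin l → N) (hb : ∀ i, b i ∈ A) :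
    a ∈ inst φ b ↔ a' ∈ inst φ b := by
  letI := o
  have h1 := (pos_oiso hp).piso
  have h2 : PIso C C ({p | (∃ i, p = (a i, a' i)) ∨ (p.1 ∈ A ∧ p.2 = p.1)} : Set (N × N)) := by
    refine ⟨h1.1, fun p hp q hq r hr => ?_⟩
    rw [ho, ho]
    exact h1.2 p hp q hq r hr
  refine realize_iff_P h φ _ (pos_fin a a') h2 _ _ ?_
  rintro (i | i)
  · exact Or.inl ⟨i, rfl⟩
  · exact Or.inr ⟨hb i, rfl⟩

theorem coords_card {N : Type*} [DecidableEq N] {l : ℕ} (B : Finset (Fin l → N)) :
    (B.biUnion (fun b => Finset.univ.image b)).card ≤ B.card * l := by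
  apply Finset.card_biUnion_le_card_mul
  intro b _
  exact Finset.card_image_le.trans (by simp)

theorem lowVC (N : Type*) [cycL.Structure N] (h : IsDCO (C : N → N → N → Prop)) :
    LowVCDensity cycL N := by
  classical
  intro k l φ
  obtain ⟨e, _, _⟩ := h.nontriv
  obtain ⟨o, -, -, -, ho⟩ := exists_order h e
  have bound : ∀ n, piStar N φ n ≤ ((n * l + 1) * 2) ^ k * (2 ^ k) ^ k := by
    intro n
    apply csSup_le'
    rintro m ⟨B, hB, rfl⟩
    let A : Finset N := B.biUnion (fun b => Finset.univ.image b)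
    have hA : A.card ≤ n * l := hB ▸ coords_card B
    have hmem : ∀ b ∈ B, ∀ i, b i ∈ A := by
      intro b hb i
      exact Finset.mem_biUnion.2 ⟨b, hb, Finset.mem_image_of_mem _ (Finset.mem_univ i)⟩
    -- choose representatives
    have hch : ∀ S ∈ phiTypes φ B, ∃ a : Fin k → N, S = {b | b ∈ B ∧ a ∈ inst φ b} := by
      rintro S ⟨a, rfl⟩
      exact ⟨a, rfl⟩
    haveI : Nonempty (Fin k → N) := ⟨fun _ => e⟩
    choose! rep hrep using hch
    have hinj : Set.InjOn (fun S => @pos N o A k (rep S)) (phiTypes φ B) := by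
      intro S hS S' hS' hSS
      rw [hrep S hS, hrep S' hS']
      ext b
      constructor
      · rintro ⟨h1, h2⟩
        exact ⟨h1, (cycOf_iff_of_pos h o ho A hSS φ b (hmem b h1)).1 h2⟩
      · rintro ⟨h1, h2⟩
        exact ⟨h1, (cycOf_iff_of_pos h o ho A hSS φ b (hmem b h1)).2 h2⟩
    have h3 := Set.ncard_le_ncard_of_injOn (s := phiTypes φ B) (t := Set.univ) _
      (fun S _ => Set.mem_univ _) hinj Set.finite_univ
    rw [Set.ncard_univ, Nat.card_eq_fintype_card, card_pos] at h3
    refine h3.trans ?_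
    gcongr
  have hO : (fun n : ℕ => (piStar N φ n : ℝ)) =O[Filter.atTop]
      (fun n : ℕ => (n : ℝ) ^ (((k : NNReal)) : ℝ)) := by
    apply Asymptotics.IsBigO.of_bound (((l + 1) * 2 : ℝ) ^ k * (2 ^ k) ^ k)
    filter_upwards [Filter.eventually_ge_atTop 1] with n hn
    have h1 : (piStar N φ n : ℝ) ≤ (((n * l + 1) * 2) ^ k * (2 ^ k) ^ k : ℕ) := by
      exact_mod_cast bound n
    have hn' : (1 : ℝ) ≤ n := by exact_mod_cast hn
    rw [Real.norm_of_nonneg (by positivity), Real.norm_of_nonneg (by positivity),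
      NNReal.coe_natCast, Real.rpow_natCast]
    refine h1.trans ?_
    push_cast
    have h2 : ((n : ℝ) * l + 1) * 2 ≤ ((l + 1) * 2) * n := by nlinarith
    calc ((n * l + 1) * 2 : ℝ) ^ k * (2 ^ k) ^ k ≤ (((l + 1) * 2) * n) ^ k * (2 ^ k) ^ k := by
          gcongr
      _ = ((l + 1) * 2 : ℝ) ^ k * (2 ^ k) ^ k * n ^ k := by
          rw [mul_pow _ (n : ℝ)]; ring
  have h4 := iInf₂_le (f := fun (r : NNReal) (_ : (fun n : ℕ => (piStar N φ n : ℝ)) =O[Filter.atTop]
    (fun n : ℕ => (n : ℝ) ^ (r : ℝ))) => (r : ENNReal)) (k : NNReal) hO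
  unfold vcDensity
  exact h4.trans (by simp)

theorem dpMin (N : Type*) [cycL.Structure N] (h : IsDCO (C : N → N → N → Prop)) :
    DpMinimal cycL N := by
  classical
  rintro ⟨l, m, φ, ψ, b, c, H⟩
  obtain ⟨e, _, _⟩ := h.nontriv
  obtain ⟨o, -, -, -, ho⟩ := exists_order h e
  let n : ℕ := 4 * (l + m) + 5
  let A : Finset N := (Finset.range n).biUnion
    (fun i => Finset.univ.image (b i) ∪ Finset.univ.image (c i))
  have hA : A.card ≤ n * (l + m) := by
    have := Finset.card_biUnion_le_card_mul (Finset.range n)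
      (fun i => Finset.univ.image (b i) ∪ Finset.univ.image (c i)) (l + m) (by
        intro i _
        refine (Finset.card_union_le _ _).trans ?_
        gcongr
        · exact Finset.card_image_le.trans (by simp)
        · exact Finset.card_image_le.trans (by simp))
    simpa using this
  have hb : ∀ i < n, ∀ t, b i t ∈ A := by
    intro i hi t
    exact Finset.mem_biUnion.2 ⟨i, Finset.mem_range.2 hi,
      Finset.mem_union_left _ (Finset.mem_image_of_mem _ (Finset.mem_univ t))⟩
  have hc : ∀ i < n, ∀ t, c i t ∈ A := by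
    intro i hi t
    exact Finset.mem_biUnion.2 ⟨i, Finset.mem_range.2 hi,
      Finset.mem_union_right _ (Finset.mem_image_of_mem _ (Finset.mem_univ t))⟩
  choose a ha using fun i j => H i j (Finset.range n)
  have hinj : Function.Injective
      (fun p : Fin n × Fin n => @pos N o A 1 (a p.1 p.2)) := by
    rintro ⟨i, j⟩ ⟨i', j'⟩ hij
    have h1 := (cycOf_iff_of_pos h o ho A hij φ (b i) (hb i i.2)).1 (ha i j).1
    have h2 := (cycOf_iff_of_pos h o ho A hij ψ (c j) (hc j j.2)).1 (ha i j).2.1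
    have h3 : (i : ℕ) = i' := by
      by_contra h4
      exact (ha i' j').2.2.1 i (Finset.mem_range.2 i.2) h4 h1
    have h4 : (j : ℕ) = j' := by
      by_contra h5
      exact (ha i' j').2.2.2 j (Finset.mem_range.2 j.2) h5 h2
    exact Prod.ext (Fin.ext h3) (Fin.ext h4)
  have h5 := Fintype.card_le_of_injective _ hinj
  rw [card_pos, Fintype.card_prod, Fintype.card_fin] at h5
  have h6 : n * n ≤ (n * (l + m) + 1) * 4 := by
    refine h5.trans ?_
    have : (A.card + 1) * 2 * 2 ≤ (n * (l + m) + 1) * 4 := by omega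
    simpa using this
  have h7 : n * n = (4 * (l + m) + 5) * n := rfl
  have h8 : 5 ≤ n := Nat.le_add_left _ _
  have h9 : (4 * (l + m) + 5) * n = 4 * (n * (l + m)) + 5 * n := by ring
  omega

/-! ### formulas of independence dimension at most 1 -/

theorem indep_pair {X : Type*} {A1 A2 : Set X} (h1 : ∃ x, x ∉ A1 ∧ x ∈ A2)
    (h2 : ∃ x, x ∉ A1 ∧ x ∉ A2) (h3 : ∃ x, x ∈ A1 ∧ x ∉ A2) (h4 : ∃ x, x ∈ A1 ∧ x ∈ A2) :
    Independent ({A1, A2} : Set (Set X)) ∧ ({A1, A2} : Set (Set X)).encard = 2 := by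
  constructor
  · intro s
    have m1 : A1 ∈ ({A1, A2} : Set (Set X)) := Or.inl rfl
    have m2 : A2 ∈ ({A1, A2} : Set (Set X)) := Or.inr rfl
    have key : ∃ x, (x ∈ A1 ↔ s ⟨A1, m1⟩ = true) ∧ (x ∈ A2 ↔ s ⟨A2, m2⟩ = true) := by
      cases hs1 : s ⟨A1, m1⟩ <;> cases hs2 : s ⟨A2, m2⟩
      · obtain ⟨x, hx, hx'⟩ := h2
        exact ⟨x, by simp [hx], by simp [hx']⟩
      · obtain ⟨x, hx, hx'⟩ := h1
        exact ⟨x, by simp [hx], by simp [hx']⟩
      · obtain ⟨x, hx, hx'⟩ := h3
        exact ⟨x, by simp [hx], by simp [hx']⟩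
      · obtain ⟨x, hx, hx'⟩ := h4
        exact ⟨x, by simp [hx], by simp [hx']⟩
    obtain ⟨x, hx1, hx2⟩ := key
    refine ⟨x, Set.mem_iInter.2 ?_⟩
    rintro ⟨B, rfl | rfl⟩
    · split_ifs with h
      · exact hx1.2 h
      · exact fun h' => h (hx1.1 h')
    · split_ifs with h
      · exact hx2.2 h
      · exact fun h' => h (hx2.1 h')
  · apply Set.encard_pair
    rintro rfl
    obtain ⟨x, hx, hx'⟩ := h1
    exact hx hx'

section OneVar

variable {N : Type*} [cycL.Structure N]

/-- transfer by an order isomorphism -/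
theorem inst_iff_of_order (h : IsDCO (C : N → N → N → Prop)) (o : LinearOrder N)
    (ho : ∀ x y z : N, C x y z ↔ @cycOf N o x y z) {l : ℕ}
    (ψ : cycL.Formula (Fin 1 ⊕ Fin l)) (c c' : Fin l → N) (x x' : N)
    (h1 : ∀ i j, o.lt (c i) (c j) ↔ o.lt (c' i) (c' j))
    (h2 : ∀ i, o.lt (c i) x ↔ o.lt (c' i) x') (h3 : ∀ i, o.lt x (c i) ↔ o.lt x' (c' i)) :
    (fun _ => x) ∈ inst ψ c ↔ (fun _ => x') ∈ inst ψ c' := by
  letI := o
  let P : Set (N × N) := insert (x, x') (Set.range (fun i => (c i, c' i)))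
  have hP : OIso P := by
    rintro p (rfl | ⟨i, rfl⟩) q (rfl | ⟨j, rfl⟩)
    · simp
    · exact h3 j
    · exact h2 i
    · exact h1 i j
  have h4 := hP.piso
  have h5 : PIso C C P := by
    refine ⟨h4.1, fun p hp q hq r hr => ?_⟩
    rw [ho, ho]
    exact h4.2 p hp q hq r hr
  refine realize_iff_P h ψ P ((Set.finite_range _).insert _) h5 _ _ ?_
  rintro (i | i)
  · exact Or.inl rfl
  · exact Or.inr ⟨i, rfl⟩

/-- a point below all parameters can be replaced by a point above all parameters -/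
theorem inst_iff_wrap (h : IsDCO (C : N → N → N → Prop)) (o : LinearOrder N)
    (ho : ∀ x y z : N, C x y z ↔ @cycOf N o x y z) {l : ℕ}
    (ψ : cycL.Formula (Fin 1 ⊕ Fin l)) (c c' : Fin l → N) (x x' : N)
    (h1 : ∀ i j, o.lt (c i) (c j) ↔ o.lt (c' i) (c' j))
    (h2 : ∀ i, o.lt x (c i)) (h3 : ∀ i, o.lt (c' i) x') :
    (fun _ => x) ∈ inst ψ c ↔ (fun _ => x') ∈ inst ψ c' := by
  letI := o
  let P : Set (N × N) := insert (x, x') (Set.range (fun i => (c i, c' i)))
  have hO : OIso (Set.range (fun i => (c i, c' i)) : Set (N × N)) := by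
    rintro p ⟨i, rfl⟩ q ⟨j, rfl⟩
    exact h1 i j
  have h4 := hO.piso
  have n2 : ∀ i, ¬ c i < x := fun i => lt_asymm (h2 i)
  have n3 : ∀ i, ¬ x' < c' i := fun i => lt_asymm (h3 i)
  have h5 : PIso C C P := by
    constructor
    · rintro p (rfl | ⟨i, rfl⟩) q (rfl | ⟨j, rfl⟩)
      · simp
      · exact ⟨fun h' => absurd h' (ne_of_lt (h2 j)), fun h' => absurd h' (ne_of_gt (h3 j))⟩
      · exact ⟨fun h' => absurd h' (ne_of_gt (h2 i)), fun h' => absurd h' (ne_of_lt (h3 i))⟩
      · exact h4.1 _ ⟨i, rfl⟩ _ ⟨j, rfl⟩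
    · intro p hp q hq r hr
      rw [ho, ho]
      rcases hp with rfl | ⟨i, rfl⟩ <;> rcases hq with rfl | ⟨j, rfl⟩ <;>
        rcases hr with rfl | ⟨k, rfl⟩
      · simp [cycOf]
      · simp [cycOf, n2, n3]
      · simp [cycOf, n2, n3]
      · have e := h1 j k
        have := h2 j
        have := h2 k
        have := h3 j
        have := h3 k
        have := n2 j
        have := n2 k
        have := n3 j
        have := n3 k
        simp only [cycOf]
        tauto
      · simp [cycOf, n2, n3]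
      · have e := h1 k i
        have := h2 i
        have := h2 k
        have := h3 i
        have := h3 k
        have := n2 i
        have := n2 k
        have := n3 i
        have := n3 k
        simp only [cycOf]
        tauto
      · have e := h1 i j
        have := h2 i
        have := h2 j
        have := h3 i
        have := h3 j
        have := n2 i
        have := n2 j
        have := n3 i
        have := n3 j
        simp only [cycOf]
        tauto
      · exact h4.2 _ ⟨i, rfl⟩ _ ⟨j, rfl⟩ _ ⟨k, rfl⟩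
  refine realize_iff_P h ψ P ((Set.finite_range _).insert _) h5 _ _ ?_
  rintro (i | i)
  · exact Or.inl rfl
  · exact Or.inr ⟨i, rfl⟩

theorem const_of_indep_aux (h : IsDCO (C : N → N → N → Prop)) {l : ℕ}
    (ψ : cycL.Formula (Fin 1 ⊕ Fin l)) (hψ : IndepDimLE N ψ 1) (c : Fin l → N) (e x : N)
    (he : ∀ i, c i ≠ e) (hx : ∀ i, c i ≠ x) (h1 : (fun _ => e) ∈ inst ψ c)
    (h2 : (fun _ => x) ∉ inst ψ c) : False := by
  classical
  obtain ⟨o, ho1, ho2, ho3, ho⟩ := exists_order h e
  letI := o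
  haveI : NoMaxOrder N := ⟨ho3⟩
  haveI : Nonempty N := ⟨e⟩
  obtain ⟨g, hg⟩ := Nat.exists_strictMono N
  have hge : ∀ i, e < c i := fun i => lt_of_le_of_ne (ho1 _) (fun h' => he i h'.symm)
  let ρ : Fin l → ℕ := fun i => (Finset.univ.filter (fun j => c j < c i)).card
  have hρl : ∀ i, ρ i ≤ l := fun i => (Finset.card_filter_le _ _).trans (by simp)
  have hρm : ∀ i j, c i < c j → ρ i < ρ j := by
    intro i j hij
    apply Finset.card_lt_card
    refine ⟨fun t ht => ?_, fun hsub => ?_⟩
    · rw [Finset.mem_filter] at *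
      exact ⟨ht.1, ht.2.trans hij⟩
    · have : i ∈ Finset.univ.filter (fun t => c t < c j) := by simp [hij]
      have := hsub this
      simp at this
  have hρe : ∀ i j, c i = c j → ρ i = ρ j := by
    intro i j hij
    simp only [ρ, hij]
  have hρ : ∀ i j, c i < c j ↔ ρ i < ρ j := by
    intro i j
    refine ⟨hρm i j, fun h' => ?_⟩
    rcases lt_trichotomy (c i) (c j) with h3 | h3 | h3
    · exact h3
    · exact absurd (hρe i j h3) (by omega)
    · exact absurd (hρm j i h3) (by omega)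
  -- the two index functions
  have hf : ∀ (u v : ℕ), u + l < v → ∀ i j, c i < c j ↔
      (if c i < x then u + ρ i else v + ρ i) < (if c j < x then u + ρ j else v + ρ j) := by
    intro u v huv i j
    have a1 := hρ i j
    have a2 := hρl i
    have a3 := hρl j
    by_cases b1 : c i < x <;> by_cases b2 : c j < x
    · simp only [b1, b2, if_true]; rw [a1]; omega
    · simp only [b1, b2, if_true, if_false]
      exact ⟨fun _ => by omega, fun _ => lt_of_lt_of_le b1 (not_lt.1 b2)⟩
    · simp only [b1, b2, if_true, if_false]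
      exact ⟨fun h' => absurd (h'.trans b2) b1, fun _ => by omega⟩
    · simp only [b1, b2, if_false]; rw [a1]; omega
  let K : ℕ := l + 1
  let c1 : Fin l → N := fun i => g (if c i < x then 0 + ρ i else (2 * K + 2) + ρ i)
  let c2 : Fin l → N := fun i => g (if c i < x then (K + 1) + ρ i else (3 * K + 3) + ρ i)
  have hc1 : ∀ i j, c i < c j ↔ c1 i < c1 j := fun i j =>
    (hf 0 (2 * K + 2) (by omega) i j).trans hg.lt_iff_lt.symm
  have hc2 : ∀ i j, c i < c j ↔ c2 i < c2 j := fun i j =>
    (hf (K + 1) (3 * K + 3) (by omega) i j).trans hg.lt_iff_lt.symm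
  have hgt : ∀ i, ¬ c i < x → x < c i := fun i hi => lt_of_le_of_ne (not_lt.1 hi) (fun h' => hx i h'.symm)
  -- general transfer facts
  have hmid : ∀ (u v t : ℕ), u + l < t → t < v → (∀ i j, c i < c j ↔
      g (if c i < x then u + ρ i else v + ρ i) < g (if c j < x then u + ρ j else v + ρ j)) →
      (fun _ => g t) ∉ inst ψ (fun i => g (if c i < x then u + ρ i else v + ρ i)) := by
    intro u v t ht1 ht2 hord
    rw [← inst_iff_of_order h o ho ψ c _ x (g t) hord]
    · exact h2
    · intro i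
      have := hρl i
      by_cases b1 : c i < x
      · simp only [b1, if_true, true_iff]
        exact hg (by omega)
      · simp only [b1, if_false, false_iff]
        have h3 : g t < g (v + ρ i) := hg (by omega)
        exact lt_asymm h3
    · intro i
      have := hρl i
      by_cases b1 : c i < x
      · simp only [b1, if_true]
        have h3 : g (u + ρ i) < g t := hg (by omega)
        exact ⟨fun h' => absurd h' (lt_asymm b1), fun h' => absurd h' (lt_asymm h3)⟩
      · simp only [b1, if_false]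
        have h3 : g t < g (v + ρ i) := hg (by omega)
        exact ⟨fun _ => h3, fun _ => hgt i b1⟩
  have hlow : ∀ (u v t : ℕ), t < u → t < v → (∀ i j, c i < c j ↔
      g (if c i < x then u + ρ i else v + ρ i) < g (if c j < x then u + ρ j else v + ρ j)) →
      (fun _ => g t) ∈ inst ψ (fun i => g (if c i < x then u + ρ i else v + ρ i)) := by
    intro u v t ht1 ht2 hord
    rw [← inst_iff_of_order h o ho ψ c _ e (g t) hord]
    · exact h1
    · intro i
      have h3 : g t < g (if c i < x then u + ρ i else v + ρ i) := hg (by split_ifs <;> omega)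
      exact ⟨fun h' => absurd h' (lt_asymm (hge i)), fun h' => absurd h' (lt_asymm h3)⟩
    · intro i
      have h3 : g t < g (if c i < x then u + ρ i else v + ρ i) := hg (by split_ifs <;> omega)
      exact ⟨fun _ => h3, fun _ => hge i⟩
  have hhigh : ∀ (u v t : ℕ), u + l < t → v + l < t → (∀ i j, c i < c j ↔
      g (if c i < x then u + ρ i else v + ρ i) < g (if c j < x then u + ρ j else v + ρ j)) →
      (fun _ => g t) ∈ inst ψ (fun i => g (if c i < x then u + ρ i else v + ρ i)) := by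
    intro u v t ht1 ht2 hord
    rw [← inst_iff_wrap h o ho ψ c _ e (g t) hord hge]
    · exact h1
    · intro i
      have := hρl i
      exact hg (by split_ifs <;> omega)
  have hI := indep_pair (A1 := inst ψ c1) (A2 := inst ψ c2)
    ⟨fun _ => g K, hmid _ _ _ (by omega) (by omega) hc1, hlow _ _ _ (by omega) (by omega) hc2⟩
    ⟨fun _ => g (2 * K + 1), hmid _ _ _ (by omega) (by omega) hc1,
      hmid _ _ _ (by omega) (by omega) hc2⟩
    ⟨fun _ => g (3 * K + 2), hhigh _ _ _ (by omega) (by omega) hc1,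
      hmid _ _ _ (by omega) (by omega) hc2⟩
    ⟨fun _ => g (4 * K + 3), hhigh _ _ _ (by omega) (by omega) hc1,
      hhigh _ _ _ (by omega) (by omega) hc2⟩
  have h3 := hψ {inst ψ c1, inst ψ c2} (by
    rintro B (rfl | rfl)
    · exact ⟨c1, rfl⟩
    · exact ⟨c2, rfl⟩) hI.1
  rw [hI.2] at h3
  exact absurd h3 (by decide)

theorem const_of_indep (h : IsDCO (C : N → N → N → Prop)) {l : ℕ}
    (ψ : cycL.Formula (Fin 1 ⊕ Fin l)) (hψ : IndepDimLE N ψ 1) (c : Fin l → N) (x y : N)
    (hx : ∀ i, c i ≠ x) (hy : ∀ i, c i ≠ y) :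
    (fun _ => x) ∈ inst ψ c ↔ (fun _ => y) ∈ inst ψ c := by
  constructor
  · intro h1
    by_contra h2
    exact const_of_indep_aux h ψ hψ c x y hx hy h1 h2
  · intro h1
    by_contra h2
    exact const_of_indep_aux h ψ hψ c y x hy hx h1 h2

theorem not_weaklyVCMinimal (h : IsDCO (C : N → N → N → Prop)) : ¬ WeaklyVCMinimal cycL N := by
  intro H
  obtain ⟨e, f, hef⟩ := h.nontriv
  let φ : cycL.Formula (Fin 1 ⊕ Fin 2) :=
    Relations.formula (CycRel.cyc : cycL.Relations 3)
      ![Term.var (Sum.inr 0), Term.var (Sum.inl 0), Term.var (Sum.inr 1)]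
  have hφ : ∀ (x : N) (b : Fin 2 → N), (fun _ => x) ∈ inst φ b ↔ C (b 0) x (b 1) := by
    intro x b
    have : (fun i => Term.realize (Sum.elim (fun _ => x) b)
        ((![Term.var (Sum.inr 0), Term.var (Sum.inl 0), Term.var (Sum.inr 1)] :
          Fin 3 → cycL.Term (Fin 1 ⊕ Fin 2)) i)) = ![b 0, x, b 1] := by
      funext i
      fin_cases i <;> rfl
    have e1 : φ.Realize (Sum.elim (fun _ => x) b) ↔ Structure.RelMap (L := cycL) CycRel.cyc
        (fun i => Term.realize (Sum.elim (fun _ => x) b)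
          ((![Term.var (Sum.inr 0), Term.var (Sum.inl 0), Term.var (Sum.inr 1)] :
          Fin 3 → cycL.Term (Fin 1 ⊕ Fin 2)) i)) := Formula.realize_rel
    rw [this] at e1
    exact e1
  obtain ⟨m, r, ψ, c, β, h1, h2⟩ := H 2 φ ![e, f]
  obtain ⟨o, ho1, ho2, ho3, ho⟩ := exists_order h e
  letI := o
  haveI : NoMaxOrder N := ⟨ho3⟩
  haveI : DenselyOrdered N := ⟨ho2⟩
  have he : e < f := lt_of_le_of_ne (ho1 f) hef
  let S : Set N := ⋃ i, Set.range (c i)
  have hS : S.Finite := Set.finite_iUnion (fun i => Set.finite_range _)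
  obtain ⟨x, hx1, hx2⟩ := (Set.Ioo_infinite he).exists_notMem_finite hS
  obtain ⟨y, hy1, hy2⟩ := (Set.Ioi_infinite f).exists_notMem_finite hS
  have hxc : ∀ i j, c i j ≠ x := fun i j h' => hx2 (Set.mem_iUnion.2 ⟨i, j, h'⟩)
  have hyc : ∀ i j, c i j ≠ y := fun i j h' => hy2 (Set.mem_iUnion.2 ⟨i, j, h'⟩)
  have h3 : (fun i => (fun _ => x) ∈ inst (ψ i) (c i)) =
      fun i => (fun _ => y) ∈ inst (ψ i) (c i) := by
    funext i
    exact propext (const_of_indep h (ψ i) (h1 i) (c i) x y (hxc i) (hyc i))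
  have h4 : (fun _ => x) ∈ inst φ ![e, f] ↔ (fun _ => y) ∈ inst φ ![e, f] := by
    rw [h2, h2, h3]
  rw [hφ, hφ, ho, ho] at h4
  have h5 : cycOf e x f := Or.inl ⟨hx1.1, hx1.2⟩
  rcases h4.1 h5 with h6 | h6 | h6
  · exact lt_asymm h6.2 hy1
  · exact lt_asymm h6.2 he
  · exact lt_asymm h6.1 he

end OneVar

instance (n : ℕ) : Subsingleton (CycRel n) := ⟨fun a b => by cases a; cases b; rfl⟩

theorem card_cycL : cycL.card ≤ Cardinal.aleph0 := by
  haveI : ∀ n, Countable (cycL.Relations n) := fun n => inferInstanceAs (Countable (CycRel n))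
  haveI : ∀ n, Countable (cycL.Functions n) := fun n => inferInstanceAs (Countable Empty)
  exact Cardinal.mk_le_aleph0

theorem exists_models (κ : Cardinal.{w}) (hκ : Cardinal.aleph0 ≤ κ) :
    ∃ N : Theory.ModelType.{0, 0, w} cycT, Cardinal.mk N = κ := by
  haveI : QCirc ⊨ cycT := inferInstanceAs (QCirc ⊨ cycL.completeTheory QCirc)
  refine Theory.exists_model_card_eq ⟨Theory.ModelType.of cycT QCirc, ?_⟩ κ hκ ?_
  · exact inferInstanceAs (Infinite ℚ)
  · refine (Cardinal.lift_le.2 card_cycL).trans ?_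
    rw [Cardinal.lift_aleph0]
    exact Cardinal.aleph0_le_lift.2 hκ

/-- **Negative answer to both questions.**  There are a (countable) language `L` and a complete
`L`-theory `T` with infinite models such that every model of `T` (in particular the monster model)
has low VC-density, is dp-minimal and is not weakly VC-minimal. -/
theorem result : ∃ (L : FirstOrder.Language.{0, 0}) (T : L.Theory), T.IsComplete ∧
    (∀ κ : Cardinal.{w}, Cardinal.aleph0 ≤ κ →
      ∃ N : Theory.ModelType.{0, 0, w} T, Cardinal.mk N = κ) ∧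
    ∀ (N : Type w) [L.Structure N] [N ⊨ T],
      LowVCDensity L N ∧ DpMinimal L N ∧ ¬ WeaklyVCMinimal L N := by
  refine ⟨cycL, cycT, cycT_complete, exists_models, ?_⟩
  intro N _ _
  have h := isDCO_model N
  exact ⟨lowVC N h, dpMin N h, not_weaklyVCMinimal h⟩

end Pool.Agent.Results.MP_670fc8_lc.CyclicOrder
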